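import Mathlib

set_option autoImplicit false

namespace Pool.Agent.Lib.CGC

/-- `A` is the area of a right triangle with rational sides. -/
def Congruent (A : ℕ) : Prop :=
  ∃ a b c : ℚ, 0 < a ∧ 0 < b ∧ 0 < c ∧ a ^ 2 + b ^ 2 = c ^ 2 ∧ a * b / 2 = A

/-- A circuit with `n` input bits and gate set `G`. Gate `g` applies `op g` to the list `inp g` of
wires; a wire is an input bit or a gate of lower level, with a negation flag. -/
structure Circuit (n : ℕ) (G : Type) where
  op : G → List Bool → Prop
  lev : G → ℕ
  inp : G → List ((Fin n ⊕ G) × Bool)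
  lt : ∀ g h b, (Sum.inr h, b) ∈ inp g → lev h < lev g
  out : G

/-- On input `x` the gate values `v` (determined level by level) make the output gate true. -/
def Circuit.Accepts {n : ℕ} {G : Type} (C : Circuit n G) (x : Fin n → Bool) : Prop :=
  ∃ v : G → Bool,
    (∀ g, v g = true ↔ C.op g ((C.inp g).map fun w => xor w.2 (Sum.elim x v w.1))) ∧
    v C.out = true

/-- All gates are taken from the basis `B` and the depth is at most `d`. -/
def Circuit.Over {n : ℕ} {G : Type} (C : Circuit n G) (B : Set (List Bool → Prop)) (d : ℕ) :
    Prop :=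
  ∀ g, C.op g ∈ B ∧ C.lev g < d

def AND (l : List Bool) : Prop := ∀ b ∈ l, b = true

def OR (l : List Bool) : Prop := ∃ b ∈ l, b = true

def MOD (p : ℕ) (l : List Bool) : Prop := p ∣ l.count true

/-- Oracle gate: the bits read, least significant first, encode a congruent number. -/
def CONG (l : List Bool) : Prop := Congruent (Nat.ofDigits 2 (l.map Bool.toNat))

end Pool.Agent.Lib.CGC
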