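import Pool.Agent.Lib.CGC.Deg
import Pool.Agent.Lib.CGC.Defs

set_option autoImplicit false

namespace Pool.Agent.Lib.CGC

open Finset

variable {m : ℕ}

section
variable {F : Type} [Field F]

theorem Ex.mono {D D' : ℕ} {B B' : Finset (Fin m → Bool)} {u : (Fin m → Bool) → Prop}
    (h : Ex F D B u) (hD : D ≤ D') (hB : B ⊆ B') : Ex F D' B' u := by
  obtain ⟨Q, hQ, h⟩ := h
  exact ⟨Q, deg_mono hD hQ, fun x hx => h x fun h2 => hx (hB h2)⟩

theorem Ex.congr {D : ℕ} {B : Finset (Fin m → Bool)} {u u' : (Fin m → Bool) → Prop}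
    (h : Ex F D B u) (hu : ∀ x, u x ↔ u' x) : Ex F D B u' := by
  have : u = u' := funext fun x => propext (hu x)
  rwa [← this]

theorem Ex.not {D : ℕ} {B : Finset (Fin m → Bool)} {u : (Fin m → Bool) → Prop}
    (h : Ex F D B u) : Ex F D B fun x => ¬ u x := by
  obtain ⟨Q, hQ, h⟩ := h
  refine ⟨1 - Q, sub_mem (one_mem _) hQ, fun x hx => ⟨fun h1 => ?_, fun h1 => ?_⟩⟩
  · simp [(h x hx).2 h1]
  · simp [(h x hx).1 (not_not.mp h1)]

theorem half (D : ℕ) (l : List ((Fin m → Bool) → F)) (hl : ∀ W ∈ l, W ∈ Deg F m D) :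
    ∀ Y : Finset (Fin m → Bool), ∃ Q ∈ Deg F m D, ∃ Z : Finset (Fin m → Bool),
      2 * Z.card ≤ Y.card ∧ (∀ x, (∀ W ∈ l, W x = 0) → Q x = 0) ∧
      ∀ x ∈ Y, x ∉ Z → (∃ W ∈ l, W x ≠ 0) → Q x ≠ 0 := by
  classical
  induction l with
  | nil => exact fun Y => ⟨0, zero_mem _, ∅, by simp, by simp, by simp⟩
  | cons W l ih =>
    intro Y
    obtain ⟨Q, hQ, Z, h1, h2, h3⟩ := ih (fun V hV => hl V (List.mem_cons_of_mem _ hV))
      (Y.filter fun x => W x = 0)
    have hW := hl W List.mem_cons_self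
    have hc := Finset.card_filter_add_card_filter_not (s := Y) (fun x => W x = 0)
    set Y1 := Y.filter fun x => ¬ W x = 0 with hY1
    have hd : (Y1.filter fun x => Q x = 0).card + (Y1.filter fun x => Q x + W x = 0).card
        ≤ Y1.card := by
      rw [← card_union_of_disjoint]
      · exact card_le_card (union_subset (filter_subset _ _) (filter_subset _ _))
      · rw [disjoint_filter]
        intro x hx h4 h5
        rw [h4, zero_add] at h5
        exact (mem_filter.mp hx).2 h5
    have key : ∀ c : F, 2 * (Y1.filter fun x => Q x + c * W x = 0).card ≤ Y1.card →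
        ∃ Q ∈ Deg F m D, ∃ Z : Finset (Fin m → Bool),
          2 * Z.card ≤ Y.card ∧ (∀ x, (∀ V ∈ W :: l, V x = 0) → Q x = 0) ∧
          ∀ x ∈ Y, x ∉ Z → (∃ V ∈ W :: l, V x ≠ 0) → Q x ≠ 0 := by
      intro c hcard
      refine ⟨Q + c • W, add_mem hQ (Submodule.smul_mem _ _ hW),
        Z ∪ Y1.filter fun x => Q x + c * W x = 0, ?_, fun x hx => ?_, fun x hx hZ hV => ?_⟩
      · have := card_union_le Z (Y1.filter fun x => Q x + c * W x = 0)
        omega
      · simp [h2 x fun V hV => hx V (List.mem_cons_of_mem _ hV), hx W List.mem_cons_self]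
      · rw [mem_union, not_or] at hZ
        by_cases h0 : W x = 0
        · obtain ⟨V, hV, hV0⟩ := hV
          rcases List.mem_cons.mp hV with rfl | hV
          · exact absurd h0 hV0
          · simpa [h0] using h3 x (mem_filter.mpr ⟨hx, h0⟩) hZ.1 ⟨V, hV, hV0⟩
        · intro h4
          exact hZ.2 (mem_filter.mpr ⟨mem_filter.mpr ⟨hx, h0⟩, by simpa using h4⟩)
    by_cases h : 2 * (Y1.filter fun x => Q x = 0).card ≤ Y1.card
    · exact key 0 (by simpa using h)
    · refine key 1 ?_
      simp only [one_mul]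
      omega

end

variable {p : ℕ} [Fact p.Prime]

theorem iter (D : ℕ) (l : List ((Fin m → Bool) → ZMod p))
    (hl : ∀ W ∈ l, W ∈ Deg (ZMod p) m D) (k : ℕ) :
    ∃ R ∈ Deg (ZMod p) m (D * ((p - 1) * k)), ∃ B : Finset (Fin m → Bool),
      B.card * 2 ^ k ≤ 2 ^ m ∧ (∀ x, (∀ W ∈ l, W x = 0) → R x = 1) ∧
      ∀ x, x ∉ B → (∃ W ∈ l, W x ≠ 0) → R x = 0 := by
  have hp : p - 1 ≠ 0 := by have := (Fact.out : p.Prime).two_le; omega
  induction k with
  | zero => exact ⟨1, one_mem _, univ, by simp, by simp, by simp⟩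
  | succ k ih =>
    obtain ⟨R, hR, B, h1, h2, h3⟩ := ih
    obtain ⟨Q, hQ, Z, a1, a2, a3⟩ := half D l hl B
    refine ⟨R * (1 - Q ^ (p - 1)), ?_, Z, ?_, fun x hx => ?_, fun x hx hW => ?_⟩
    · have := mul_mem hR (sub_mem (one_mem _) (pow_mem hQ (p - 1)))
      rwa [← mul_add, ← Nat.mul_succ] at this
    · calc Z.card * 2 ^ (k + 1) = (2 * Z.card) * 2 ^ k := by ring
        _ ≤ B.card * 2 ^ k := Nat.mul_le_mul_right _ a1
        _ ≤ _ := h1
    · simp [h2 x hx, a2 x hx, hp]
    · by_cases hB : x ∈ B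
      · simp [ZMod.pow_card_sub_one_eq_one (a3 x hB hx hW)]
      · simp [h3 x hB hW]

theorem Ex.or {α : Type} (k D : ℕ) (B : Finset (Fin m → Bool)) (l : List α)
    (u : α → (Fin m → Bool) → Prop) (h : ∀ a ∈ l, Ex (ZMod p) D B (u a)) :
    ∃ B' : Finset (Fin m → Bool), B'.card * 2 ^ k ≤ 2 ^ m ∧
      Ex (ZMod p) (D * ((p - 1) * k)) (B ∪ B') fun x => ∃ a ∈ l, u a x := by
  classical
  choose! Q hQ h using h
  obtain ⟨R, hR, B', h1, h2, h3⟩ := iter (p := p) D (l.map Q) (by
    intro W hW
    obtain ⟨a, ha, rfl⟩ := List.mem_map.mp hW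
    exact hQ a ha) k
  refine ⟨B', h1, 1 - R, sub_mem (one_mem _) hR, fun x hx => ?_⟩
  rw [mem_union, not_or] at hx
  constructor
  · rintro ⟨a, ha, hu⟩
    have := h3 x hx.2 ⟨Q a, List.mem_map_of_mem ha, by rw [(h a ha x hx.1).1 hu]; exact one_ne_zero⟩
    simp [this]
  · intro hu
    have := h2 x (by
      intro W hW
      obtain ⟨a, ha, rfl⟩ := List.mem_map.mp hW
      exact (h a ha x hx.1).2 fun h4 => hu ⟨a, ha, h4⟩)
    simp [this]

theorem Ex.mod {α : Type} (D : ℕ) (B : Finset (Fin m → Bool)) (l : List α)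
    (u : α → (Fin m → Bool) → Bool) (h : ∀ a ∈ l, Ex (ZMod p) D B fun x => u a x = true) :
    Ex (ZMod p) (D * (p - 1)) B fun x => p ∣ (l.map fun a => u a x).count true := by
  have hp : p - 1 ≠ 0 := by have := (Fact.out : p.Prime).two_le; omega
  have key : ∃ Q ∈ Deg (ZMod p) m D, ∀ x, x ∉ B →
      Q x = (((l.map fun a => u a x).count true : ℕ) : ZMod p) := by
    induction l with
    | nil => exact ⟨0, zero_mem _, by simp⟩
    | cons a l ih =>
      obtain ⟨Q, hQ, h1⟩ := ih fun b hb => h b (List.mem_cons_of_mem _ hb)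
      obtain ⟨W, hW, h2⟩ := h a List.mem_cons_self
      refine ⟨Q + W, add_mem hQ hW, fun x hx => ?_⟩
      rw [List.map_cons, List.count_cons, Pi.add_apply, h1 x hx]
      cases hu : u a x
      · simp [(h2 x hx).2 (by simp [hu])]
      · simp [(h2 x hx).1 hu]
  obtain ⟨Q, hQ, h1⟩ := key
  refine ⟨1 - Q ^ (p - 1), sub_mem (one_mem _) (pow_mem hQ _), fun x hx => ⟨fun h2 => ?_,
    fun h2 => ?_⟩⟩
  · have : Q x = 0 := by rw [h1 x hx]; exact (ZMod.natCast_eq_zero_iff _ _).mpr h2
    simp [this, hp]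
  · have : Q x ≠ 0 := by rw [h1 x hx]; exact fun h3 => h2 ((ZMod.natCast_eq_zero_iff _ _).mp h3)
    simp [ZMod.pow_card_sub_one_eq_one this]

/-- approximation with error `b / 2 ^ k` -/
def App (p : ℕ) [Fact p.Prime] {m : ℕ} (k D b : ℕ) (u : (Fin m → Bool) → Prop) : Prop :=
  ∃ B : Finset (Fin m → Bool), B.card * 2 ^ k ≤ b * 2 ^ m ∧ Ex (ZMod p) D B u

theorem App.not {k D b : ℕ} {u : (Fin m → Bool) → Prop} (h : App p k D b u) :
    App p k D b fun x => ¬ u x := by
  obtain ⟨B, h1, h2⟩ := h
  exact ⟨B, h1, h2.not⟩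

theorem App.or {α : Type} {k D b : ℕ} (l : List α) (u : α → (Fin m → Bool) → Prop)
    (h : ∀ a ∈ l, App p k D b (u a)) :
    App p k (D * ((p - 1) * k)) (l.length * b + 1) fun x => ∃ a ∈ l, u a x := by
  classical
  have key : ∃ B : Finset (Fin m → Bool), B.card * 2 ^ k ≤ l.length * b * 2 ^ m ∧
      ∀ a ∈ l, Ex (ZMod p) D B (u a) := by
    induction l with
    | nil => exact ⟨∅, by simp, by simp⟩
    | cons a l ih =>
      obtain ⟨B, h1, h2⟩ := ih fun b hb => h b (List.mem_cons_of_mem _ hb)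
      obtain ⟨B', h3, h4⟩ := h a List.mem_cons_self
      refine ⟨B ∪ B', ?_, fun c hc => ?_⟩
      · have := Nat.mul_le_mul_right (2 ^ k) (card_union_le B B')
        rw [List.length_cons]
        nlinarith
      · rcases List.mem_cons.mp hc with rfl | hc
        · exact h4.mono le_rfl subset_union_right
        · exact (h2 c hc).mono le_rfl subset_union_left
  obtain ⟨B, h1, h2⟩ := key
  obtain ⟨B', h3, h4⟩ := Ex.or k D B l u h2
  refine ⟨B ∪ B', ?_, h4⟩
  have := Nat.mul_le_mul_right (2 ^ k) (card_union_le B B')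
  nlinarith

/-- the value read by a wire -/
def wire {n : ℕ} {G : Type} (x : Fin n → Bool) (v : G → Bool) (w : (Fin n ⊕ G) × Bool) : Bool :=
  xor w.2 (Sum.elim x v w.1)

def Cons {n : ℕ} {G : Type} (C : Circuit n G) (x : Fin n → Bool) (v : G → Bool) : Prop :=
  ∀ g, v g = true ↔ C.op g ((C.inp g).map (wire x v))

theorem cons_unique {n : ℕ} {G : Type} (C : Circuit n G) (x : Fin n → Bool) (v v' : G → Bool)
    (h : Cons C x v) (h' : Cons C x v') (g : G) : v g = v' g := by
  induction hL : C.lev g using Nat.strong_induction_on generalizing g with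
  | _ L ih =>
    have : (C.inp g).map (wire x v) = (C.inp g).map (wire x v') := by
      refine List.map_congr_left ?_
      rintro ⟨w | w, b⟩ hw
      · rfl
      · simp only [wire, Sum.elim_inr]
        rw [ih _ (hL ▸ C.lt g w b hw) w rfl]
    rw [Bool.eq_iff_iff, h g, h' g, this]

theorem cons_exists {n : ℕ} {G : Type} (C : Circuit n G) (x : Fin n → Bool) :
    ∃ v, Cons C x v := by
  classical
  let it : ℕ → G → Bool := fun L => Nat.rec (fun _ => false)
    (fun _ v g => decide (C.op g ((C.inp g).map (wire x v)))) L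
  have hs : ∀ L g, it (L + 1) g = decide (C.op g ((C.inp g).map (wire x (it L)))) :=
    fun _ _ => rfl
  have st : ∀ L g, C.lev g < L → ∀ L', C.lev g < L' → it L g = it L' g := by
    intro L
    induction L with
    | zero => intro g h; omega
    | succ L ih =>
      intro g h L' h'
      obtain ⟨L', rfl⟩ : ∃ M, L' = M + 1 := ⟨L' - 1, by omega⟩
      have : (C.inp g).map (wire x (it L)) = (C.inp g).map (wire x (it L')) := by
        refine List.map_congr_left ?_
        rintro ⟨w | w, b⟩ hw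
        · rfl
        · have := C.lt g w b hw
          simp only [wire, Sum.elim_inr]
          rw [ih w (by omega) L' (by omega)]
      rw [hs, hs, this]
  refine ⟨fun g => it (C.lev g + 1) g, fun g => ?_⟩
  have : (C.inp g).map (wire x (it (C.lev g))) =
      (C.inp g).map (wire x fun g => it (C.lev g + 1) g) := by
    refine List.map_congr_left ?_
    rintro ⟨w | w, b⟩ hw
    · rfl
    · have := C.lt g w b hw
      simp only [wire, Sum.elim_inr]
      rw [st _ w this (C.lev w + 1) (by omega)]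
  simp only []
  rw [hs, this, decide_eq_true_iff]

theorem accepts_iff {n : ℕ} {G : Type} (C : Circuit n G) (x : Fin n → Bool) (v : G → Bool)
    (h : Cons C x v) : C.Accepts x ↔ v C.out = true := by
  constructor
  · rintro ⟨v', h1, h2⟩
    rw [cons_unique C x v v' h h1, h2]
  · exact fun h2 => ⟨v, h, h2⟩

theorem levels {n : ℕ} {G : Type} [Fintype G] (C : Circuit n G) (d k D : ℕ) (hk : 1 ≤ k)
    (hC : C.Over {AND, OR, MOD p} d) (y : (Fin m → Bool) → Fin n → Bool)
    (hy : ∀ i, Ex (ZMod p) D ∅ fun x => y x i = true) (v : (Fin m → Bool) → G → Bool)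
    (hv : ∀ x, Cons C (y x) (v x)) (L : ℕ) :
    ∃ B : Finset (Fin m → Bool),
      B.card * 2 ^ k ≤ (univ.filter fun g => C.lev g < L).card * 2 ^ m ∧
      ∀ g, C.lev g < L → Ex (ZMod p) (D * ((p - 1) * k) ^ L) B fun x => v x g = true := by
  classical
  have hp : 1 ≤ p - 1 := by have := (Fact.out : p.Prime).two_le; omega
  have hK : 1 ≤ (p - 1) * k := Nat.mul_pos hp hk
  induction L with
  | zero => exact ⟨∅, by simp, by simp⟩
  | succ L ih =>
    obtain ⟨B, h1, h2⟩ := ih
    have hw : ∀ g, C.lev g = L → ∀ w ∈ C.inp g,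
        Ex (ZMod p) (D * ((p - 1) * k) ^ L) B fun x => wire (y x) (v x) w = true := by
      rintro g hg ⟨w, b⟩ hw
      have : Ex (ZMod p) (D * ((p - 1) * k) ^ L) B fun x => Sum.elim (y x) (v x) w = true := by
        rcases w with w | w
        · exact (hy w).mono (Nat.le_mul_of_pos_right _ (by positivity)) (empty_subset _)
        · exact h2 w (hg ▸ C.lt g w b hw)
      cases b
      · exact this.congr fun x => by simp [wire]
      · exact this.not.congr fun x => by simp [wire]
    have step : ∀ g, C.lev g = L → ∃ B' : Finset (Fin m → Bool), B'.card * 2 ^ k ≤ 2 ^ m ∧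
        Ex (ZMod p) (D * ((p - 1) * k) ^ (L + 1)) (B ∪ B') fun x => v x g = true := by
      intro g hg
      rw [pow_succ, ← mul_assoc]
      rcases (hC g).1 with h | h | h
      · obtain ⟨B', a1, a2⟩ := Ex.or k _ B (C.inp g)
          (fun w x => ¬ wire (y x) (v x) w = true) fun w hw' => (hw g hg w hw').not
        refine ⟨B', a1, a2.not.congr fun x => ?_⟩
        rw [hv x g, h]
        simp [AND]
      · obtain ⟨B', a1, a2⟩ := Ex.or k _ B (C.inp g)
          (fun w x => wire (y x) (v x) w = true) fun w hw' => hw g hg w hw'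
        refine ⟨B', a1, a2.congr fun x => ?_⟩
        rw [hv x g, h]
        simp [OR]
      · refine ⟨∅, by simp, ((Ex.mod _ B (C.inp g) (fun w x => wire (y x) (v x) w)
          fun w hw' => hw g hg w hw').mono (Nat.mul_le_mul_left _
            (Nat.le_mul_of_pos_right _ hk)) subset_union_left).congr fun x => ?_⟩
        rw [hv x g, Set.mem_singleton_iff.mp h]
        rfl
    choose! B' a1 a2 using step
    refine ⟨B ∪ (univ.filter fun g => C.lev g = L).biUnion B', ?_, fun g hg => ?_⟩
    · have e1 : (univ.filter fun g => C.lev g < L + 1).card =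
          (univ.filter fun g => C.lev g < L).card + (univ.filter fun g => C.lev g = L).card := by
        rw [← card_union_of_disjoint (by rw [disjoint_filter]; intro g _ h; omega)]
        congr 1; ext g; simp; omega
      have e2 : ((univ.filter fun g => C.lev g = L).biUnion B').card * 2 ^ k ≤
          (univ.filter fun g => C.lev g = L).card * 2 ^ m := by
        refine (Nat.mul_le_mul_right _ card_biUnion_le).trans ?_
        rw [sum_mul]
        exact (sum_le_card_nsmul _ _ _ fun g hg => a1 g (mem_filter.mp hg).2).trans (by simp)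
      have := Nat.mul_le_mul_right (2 ^ k)
        (card_union_le B ((univ.filter fun g => C.lev g = L).biUnion B'))
      rw [e1]
      nlinarith
    · by_cases h : C.lev g = L
      · exact (a2 g h).mono le_rfl (union_subset_union (Subset.refl _)
          (subset_biUnion_of_mem B' (by simpa using h)))
      · exact (h2 g (by omega)).mono
          (Nat.mul_le_mul_left _ (Nat.pow_le_pow_right hK (by omega))) subset_union_left

theorem circuit_app {n : ℕ} {G : Type} [Fintype G] (C : Circuit n G) (d k D : ℕ) (hk : 1 ≤ k)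
    (hC : C.Over {AND, OR, MOD p} d) (y : (Fin m → Bool) → Fin n → Bool)
    (hy : ∀ i, Ex (ZMod p) D ∅ fun x => y x i = true) :
    App p k (D * ((p - 1) * k) ^ d) (Fintype.card G) fun x => C.Accepts (y x) := by
  choose v hv using fun x => cons_exists C (y x)
  obtain ⟨B, h1, h2⟩ := levels C d k D hk hC y hy v hv d
  refine ⟨B, h1.trans (Nat.mul_le_mul_right _ (card_le_univ _)),
    (h2 _ (hC C.out).2).congr fun x => (accepts_iff C _ _ (hv x)).symm⟩

end Pool.Agent.Lib.CGC
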