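import Mathlib

set_option autoImplicit false

namespace Pool.Agent.Lib.CGC

open Finset

variable {F : Type} [Field F] {m : ℕ}

def mono (F : Type) [Field F] {m : ℕ} (S : Finset (Fin m)) : (Fin m → Bool) → F :=
  fun x => if ∀ i ∈ S, x i = true then 1 else 0

def Deg (F : Type) [Field F] (m D : ℕ) : Submodule F ((Fin m → Bool) → F) :=
  Submodule.span F {f | ∃ S : Finset (Fin m), S.card ≤ D ∧ f = mono F S}

def wt {m : ℕ} (x : Fin m → Bool) : ℕ := (univ.filter fun i => x i = true).card

theorem mono_mem {D : ℕ} (S : Finset (Fin m)) (h : S.card ≤ D) : mono F S ∈ Deg F m D :=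
  Submodule.subset_span ⟨S, h, rfl⟩

theorem deg_mono {a b : ℕ} (h : a ≤ b) {f : (Fin m → Bool) → F} (hf : f ∈ Deg F m a) :
    f ∈ Deg F m b :=
  by
  refine Submodule.span_mono ?_ hf
  rintro _ ⟨S, h1, h2⟩
  exact ⟨S, h1.trans h, h2⟩

theorem mono_mul (S T : Finset (Fin m)) : mono F S * mono F T = mono F (S ∪ T) := by
  funext x
  simp only [mono, Pi.mul_apply, Finset.forall_mem_union]
  by_cases h1 : ∀ i ∈ S, x i = true
  · by_cases h2 : ∀ i ∈ T, x i = true
    · rw [if_pos h1, if_pos h2, if_pos ⟨h1, h2⟩, mul_one]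
    · rw [if_neg h2, if_neg (fun h : _ ∧ _ => h2 h.2), mul_zero]
  · rw [if_neg h1, if_neg (fun h : _ ∧ _ => h1 h.1), zero_mul]

theorem one_mem (D : ℕ) : (1 : (Fin m → Bool) → F) ∈ Deg F m D := by
  have : (1 : (Fin m → Bool) → F) = mono F ∅ := by funext x; simp [mono]
  rw [this]; exact mono_mem _ (by simp)

theorem mul_mem {a b : ℕ} {f g : (Fin m → Bool) → F} (hf : f ∈ Deg F m a) (hg : g ∈ Deg F m b) :
    f * g ∈ Deg F m (a + b) := by
  induction hf using Submodule.span_induction with
  | mem f h =>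
    obtain ⟨S, hS, rfl⟩ := h
    induction hg using Submodule.span_induction with
    | mem g h =>
      obtain ⟨T, hT, rfl⟩ := h
      rw [mono_mul]
      exact mono_mem _ ((card_union_le _ _).trans (add_le_add hS hT))
    | zero => simp
    | add g1 g2 _ _ h1 h2 => rw [mul_add]; exact add_mem h1 h2
    | smul c g _ h => rw [mul_smul_comm]; exact Submodule.smul_mem _ _ h
  | zero => simp
  | add f1 f2 _ _ h1 h2 => rw [add_mul]; exact add_mem h1 h2
  | smul c f _ h => rw [smul_mul_assoc]; exact Submodule.smul_mem _ _ h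

theorem pow_mem {a : ℕ} {f : (Fin m → Bool) → F} (hf : f ∈ Deg F m a) (k : ℕ) :
    f ^ k ∈ Deg F m (a * k) := by
  induction k with
  | zero => simpa using one_mem _
  | succ k ih => rw [pow_succ, Nat.mul_succ]; exact mul_mem ih hf

theorem prod_mem {ι : Type} (s : Finset ι) (f : ι → (Fin m → Bool) → F)
    (hf : ∀ i ∈ s, f i ∈ Deg F m 1) : (∏ i ∈ s, f i) ∈ Deg F m s.card := by
  classical
  induction s using Finset.induction_on with
  | empty => simpa using one_mem _
  | insert a s ha ih =>
    rw [prod_insert ha, card_insert_of_notMem ha, add_comm]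
    exact mul_mem (hf a (mem_insert_self _ _)) (ih fun i hi => hf i (mem_insert_of_mem hi))

theorem lit_mem (i : Fin m) (b : Bool) :
    (fun x : Fin m → Bool => if x i = b then (1 : F) else 0) ∈ Deg F m 1 := by
  have h1 : mono F ({i} : Finset (Fin m)) ∈ Deg F m 1 := mono_mem _ (by simp)
  cases b
  · have : (fun x : Fin m → Bool => if x i = false then (1 : F) else 0) = 1 - mono F {i} := by
      funext x; cases h : x i <;> simp [mono, h]
    rw [this]; exact sub_mem (one_mem _) h1
  · have : (fun x : Fin m → Bool => if x i = true then (1 : F) else 0) = mono F {i} := by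
      funext x; cases h : x i <;> simp [mono, h]
    rw [this]; exact h1

theorem all_mem (f : (Fin m → Bool) → F) : f ∈ Deg F m m := by
  have h : f = ∑ y : Fin m → Bool, f y •
      ∏ i : Fin m, (fun x : Fin m → Bool => if x i = y i then (1 : F) else 0) := by
    funext x
    simp only [Finset.sum_apply, Pi.smul_apply, Finset.prod_apply, smul_eq_mul]
    rw [Finset.sum_eq_single x]
    · simp
    · intro y _ hy
      obtain ⟨i, hi⟩ := Function.ne_iff.mp hy
      rw [Finset.prod_eq_zero (mem_univ i) (by simp [hi.symm])]; simp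
    · simp
  rw [h]
  refine Submodule.sum_mem _ fun y _ => Submodule.smul_mem _ _ ?_
  simpa using prod_mem (F := F) (m := m) univ _ fun i _ => lit_mem i (y i)

theorem flip_mem {D : ℕ} {f : (Fin m → Bool) → F} (hf : f ∈ Deg F m D) :
    (fun x => f fun i => !x i) ∈ Deg F m D := by
  induction hf using Submodule.span_induction with
  | mem f h =>
    obtain ⟨S, hS, rfl⟩ := h
    have : (fun x : Fin m → Bool => mono F S fun i => !x i) =
        ∏ i ∈ S, (fun x : Fin m → Bool => if x i = false then (1 : F) else 0) := by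
      funext x
      simp only [mono, Finset.prod_apply]
      by_cases h : ∀ i ∈ S, (!x i) = true
      · rw [if_pos h]
        exact (Finset.prod_eq_one fun i hi => by simpa using h i hi).symm
      · rw [if_neg h]
        push Not at h
        obtain ⟨i, hi, h⟩ := h
        exact (Finset.prod_eq_zero hi (by simpa using h)).symm
    rw [this]
    exact deg_mono hS (prod_mem S _ fun i _ => lit_mem i false)
  | zero => exact zero_mem _
  | add f1 f2 _ _ h1 h2 => exact add_mem h1 h2
  | smul c f _ h => exact Submodule.smul_mem _ c h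

theorem ball (r : ℕ) (f : (Fin m → Bool) → F) :
    ∃ g ∈ Deg F m r, ∀ x, wt x ≤ r → g x = f x := by
  have hf := all_mem f
  induction hf using Submodule.span_induction with
  | mem f h =>
    obtain ⟨S, _, rfl⟩ := h
    by_cases h : S.card ≤ r
    · exact ⟨_, mono_mem S h, fun _ _ => rfl⟩
    · refine ⟨0, zero_mem _, fun x hx => ?_⟩
      simp only [mono, Pi.zero_apply]
      rw [if_neg]
      intro h2
      have : S ⊆ univ.filter fun i => x i = true := fun i hi => by simpa using h2 i hi
      exact h ((card_le_card this).trans hx)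
  | zero => exact ⟨0, zero_mem _, fun _ _ => rfl⟩
  | add f1 f2 _ _ h1 h2 =>
    obtain ⟨g1, a1, b1⟩ := h1
    obtain ⟨g2, a2, b2⟩ := h2
    exact ⟨g1 + g2, add_mem a1 a2, fun x hx => by simp [b1 x hx, b2 x hx]⟩
  | smul c f _ h =>
    obtain ⟨g, a, b⟩ := h
    exact ⟨c • g, Submodule.smul_mem _ c a, fun x hx => by simp [b x hx]⟩

theorem wt_flip (x : Fin m → Bool) : wt (fun i => !x i) + wt x = m := by
  have := Finset.card_filter_add_card_filter_not (s := (univ : Finset (Fin m)))
    (fun i => x i = true)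
  simp only [card_univ, Fintype.card_fin] at this
  have h2 : wt (fun i => !x i) = (univ.filter fun i => ¬ x i = true).card := by
    unfold wt; congr 1; ext i; simp
  rw [h2, add_comm]; exact this

theorem ball' (r : ℕ) (f : (Fin m → Bool) → F) :
    ∃ g ∈ Deg F m r, ∀ x, m ≤ wt x + r → g x = f x := by
  obtain ⟨g, hg, h⟩ := ball r (fun x => f fun i => !x i)
  refine ⟨_, flip_mem hg, fun x hx => ?_⟩
  have := wt_flip x
  rw [h _ (by omega)]
  simp

theorem finrank_le (D : ℕ) :
    Module.finrank F (Deg F m D) ≤ ∑ j ∈ range (D + 1), m.choose j := by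
  classical
  let s : Finset (Finset (Fin m)) := (range (D + 1)).biUnion fun j => powersetCard j univ
  have h1 : {f | ∃ S : Finset (Fin m), S.card ≤ D ∧ f = mono F S} =
      ((s.image (mono F) : Finset _) : Set _) := by
    ext f
    simp only [Set.mem_ofPred_eq, coe_image, Set.mem_image, mem_coe, s, mem_biUnion, mem_range,
      mem_powersetCard]
    constructor
    · rintro ⟨S, h, rfl⟩
      exact ⟨S, ⟨S.card, by omega, subset_univ _, rfl⟩, rfl⟩
    · rintro ⟨S, ⟨j, h, _, h2⟩, rfl⟩
      exact ⟨S, by omega, rfl⟩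
  unfold Deg
  rw [h1]
  refine (finrank_span_finset_le_card _).trans (card_image_le.trans (card_biUnion_le.trans ?_))
  simp

theorem sum_choose_le (r D : ℕ) :
    ∑ j ∈ range (r + D + 1), (2 * r + 1).choose j ≤ 4 ^ r + D * (2 * r.centralBinom) := by
  induction D with
  | zero => simp [Nat.sum_range_choose_halfway]
  | succ D ih =>
    rw [← add_assoc, sum_range_succ]
    have h1 := Nat.choose_le_middle (r + D + 1) (2 * r + 1)
    have h2 : (2 * r + 1) / 2 = r := by omega
    rw [h2] at h1
    have h3 : (2 * r + 1).choose r ≤ 2 * r.centralBinom := by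
      rw [← Nat.choose_symm_half, Nat.choose_succ_succ', Nat.centralBinom]
      have := Nat.choose_le_middle (r + 1) (2 * r)
      have h4 : 2 * r / 2 = r := by omega
      rw [h4] at this
      omega
    nlinarith

theorem central_sq (r : ℕ) : r.centralBinom ^ 2 * (2 * r + 1) ≤ 16 ^ r := by
  induction r with
  | zero => simp
  | succ r ih =>
    have h := Nat.succ_mul_centralBinom_succ r
    have h2 : (r + 1) ^ 2 * ((r + 1).centralBinom ^ 2 * (2 * (r + 1) + 1)) ≤
        (r + 1) ^ 2 * 16 ^ (r + 1) := by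
      calc (r + 1) ^ 2 * ((r + 1).centralBinom ^ 2 * (2 * (r + 1) + 1))
          = ((r + 1) * (r + 1).centralBinom) ^ 2 * (2 * r + 3) := by ring
        _ = (r.centralBinom ^ 2 * (2 * r + 1)) * (4 * (2 * r + 1) * (2 * r + 3)) := by
          rw [h]; ring
        _ ≤ 16 ^ r * (16 * (r + 1) ^ 2) := Nat.mul_le_mul ih (by nlinarith)
        _ = _ := by ring
    exact Nat.le_of_mul_le_mul_left h2 (by positivity)

/-- `u` agrees with a function of degree at most `D` outside `B`. -/
def Ex (F : Type) [Field F] {m : ℕ} (D : ℕ) (B : Finset (Fin m → Bool))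
    (u : (Fin m → Bool) → Prop) : Prop :=
  ∃ Q ∈ Deg F m D, ∀ x, x ∉ B → (u x → Q x = 1) ∧ (¬ u x → Q x = 0)

theorem smolensky (r D : ℕ) (B : Finset (Fin (2 * r + 1) → Bool))
    (hB : 4 * B.card ≤ 2 ^ (2 * r + 1)) (h : Ex F D B fun x => r + 1 ≤ wt x) :
    2 * r + 1 ≤ 16 * D ^ 2 := by
  classical
  obtain ⟨Q, hQ, h⟩ := h
  let L : Deg F (2 * r + 1) (r + D) →ₗ[F] ((Bᶜ : Finset _) → F) :=
    (LinearMap.funLeft F F Subtype.val).comp (Submodule.subtype _)
  have hL : Function.Surjective L := by
    intro f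
    let f' : (Fin (2 * r + 1) → Bool) → F := fun x => if hx : x ∈ Bᶜ then f ⟨x, hx⟩ else 0
    obtain ⟨g1, a1, b1⟩ := ball r f'
    obtain ⟨g2, a2, b2⟩ := ball' r f'
    refine ⟨⟨g2 * Q + g1 * (1 - Q), add_mem (mul_mem a2 hQ)
      (mul_mem a1 (sub_mem (one_mem _) hQ))⟩, ?_⟩
    funext ⟨x, hx⟩
    have hx' : x ∉ B := by simpa using hx
    have e : f' x = f ⟨x, hx⟩ := by simp only [f']; rw [dif_pos hx]
    show g2 x * Q x + g1 x * (1 - Q x) = f ⟨x, hx⟩
    by_cases hw : r + 1 ≤ wt x
    · rw [(h x hx').1 hw, b2 x (by omega), e]; ring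
    · rw [(h x hx').2 hw, b1 x (by omega), e]; ring
  have h1 := LinearMap.finrank_range_le L
  rw [LinearMap.range_eq_top.mpr hL, finrank_top, Module.finrank_fintype_fun_eq_card,
    Fintype.card_coe, card_compl] at h1
  have h2 := h1.trans ((finrank_le (F := F) (r + D)).trans (sum_choose_le r D))
  simp only [Fintype.card_fun, Fintype.card_bool, Fintype.card_fin] at h2
  have h3 : 2 ^ (2 * r + 1) = 2 * 4 ^ r := by rw [pow_succ, pow_mul]; ring
  have h4 : 4 ^ r ≤ 4 * D * r.centralBinom := by
    have : D * (2 * r.centralBinom) = 2 * (D * r.centralBinom) := by ring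
    have : 4 * D * r.centralBinom = 4 * (D * r.centralBinom) := by ring
    omega
  have h5 := central_sq r
  have h6 : (16 : ℕ) ^ r = (4 ^ r) ^ 2 := by rw [← pow_mul, mul_comm, pow_mul]; norm_num
  have h7 := Nat.pow_le_pow_left h4 2
  have h8 : r.centralBinom ^ 2 * (2 * r + 1) ≤ r.centralBinom ^ 2 * (16 * D ^ 2) := by
    calc _ ≤ (4 * D * r.centralBinom) ^ 2 := by omega
      _ = _ := by ring
  exact Nat.le_of_mul_le_mul_left h8 (pow_pos (Nat.centralBinom_pos r) 2)

end Pool.Agent.Lib.CGC
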