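import Mathlib

set_option autoImplicit false

namespace Pool.Agent.Lib.CGC

open Finset

abbrev Ty := Option (Fin 3)

abbrev Ix (m : ℕ) := Fin m × Ty

def Full {m : ℕ} (f : Ty → Ix m) : Prop := ∃ i, ∀ τ, ∃ j, f j = (i, τ)

def cnt {m : ℕ} (f : Ty → Ix m) (ι : Ix m) : ℕ := (univ.filter fun j => f j = ι).card

theorem cnt_le {m : ℕ} (f : Ty → Ix m) (ι : Ix m) : cnt f ι ≤ 4 :=
  (card_le_univ _).trans (by simp)

theorem cnt_pos {m : ℕ} (f : Ty → Ix m) (ι : Ix m) : 0 < cnt f ι ↔ ∃ j, f j = ι := by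
  unfold cnt
  rw [card_pos]
  simp [Finset.Nonempty]

theorem sum_cnt {m : ℕ} (f : Ty → Ix m) : ∑ ι, cnt f ι = 4 := by
  have := Finset.card_eq_sum_card_fiberwise (s := (univ : Finset Ty))
    (t := (univ : Finset (Ix m))) (f := f) (fun _ _ => by simp)
  simpa [cnt] using this.symm

theorem comb {m : ℕ} (f f' : Ty → Ix m)
    (h : ∀ i τ, cnt f (i, some τ) + cnt f' (i, none) = cnt f' (i, some τ) + cnt f (i, none)) :
    (∀ ι, (∃ j, f j = ι) ↔ ∃ j, f' j = ι) ∨ (Full f ∧ Full f') := by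
  have h' : ∀ i τ, cnt f (i, τ) + cnt f' (i, none) = cnt f' (i, τ) + cnt f (i, none) := by
    rintro i (_ | τ)
    · omega
    · exact h i τ
  have key : ∀ g g' : Ty → Ix m,
      (∀ i τ, cnt g (i, τ) + cnt g' (i, none) = cnt g' (i, τ) + cnt g (i, none)) →
      (∀ i, cnt g (i, none) ≤ cnt g' (i, none)) → ∀ ι, cnt g ι = cnt g' ι := by
    intro g g' h1 h2
    have h3 : ∀ ι ∈ (univ : Finset (Ix m)), cnt g ι ≤ cnt g' ι := by
      rintro ⟨i, τ⟩ _
      have := h1 i τ
      have := h2 i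
      omega
    have := (Finset.sum_eq_sum_iff_of_le h3).mp (by rw [sum_cnt, sum_cnt])
    exact fun ι => this ι (mem_univ _)
  have full : ∀ g g' : Ty → Ix m,
      (∀ i τ, cnt g (i, τ) + cnt g' (i, none) = cnt g' (i, τ) + cnt g (i, none)) →
      (¬ ∀ i, cnt g (i, none) ≤ cnt g' (i, none)) → Full g := by
    intro g g' h1 h2
    push Not at h2
    obtain ⟨i, hi⟩ := h2
    refine ⟨i, fun τ => (cnt_pos _ _).mp ?_⟩
    have := h1 i τ
    omega
  by_cases h1 : ∀ i, cnt f (i, none) ≤ cnt f' (i, none)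
  · left
    intro ι
    rw [← cnt_pos, ← cnt_pos, key f f' h' h1]
  · by_cases h2 : ∀ i, cnt f' (i, none) ≤ cnt f (i, none)
    · left
      intro ι
      rw [← cnt_pos, ← cnt_pos, key f' f (fun i τ => (h' i τ).symm) h2]
    · exact Or.inr ⟨full f f' h' h1, full f' f (fun i τ => (h' i τ).symm) h2⟩

/-- the linear form attached to an index -/
def form (K : Type) [Field K] {m : ℕ} : Ix m → ((Fin m × Fin 3 → K) →ₗ[K] K)
  | (i, some τ) => LinearMap.proj (i, τ)
  | (i, none) => -∑ τ, LinearMap.proj (i, τ)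

theorem form_single (K : Type) [Field K] {m : ℕ} (i : Fin m) (τ : Fin 3) (ι : Ix m) :
    form K ι (Pi.single (i, τ) 1) =
      (if ι = (i, some τ) then 1 else 0) - (if ι = (i, none) then 1 else 0) := by
  obtain ⟨i', _ | τ'⟩ := ι
  · by_cases h : i' = i
    · subst h
      simp [form, Pi.single_apply]
    · simp [form, h]
  · simp [form, Pi.single_apply]

theorem exps (m : ℕ) (hm : 1 ≤ m) : ∃ (P : ℕ) (e : Ix m → ℕ), 1 ≤ P ∧ P ≤ 2 * (4 * m) ^ 8 ∧
    (∀ i, ∑ τ, e (i, τ) = 8 * P) ∧ (∀ ι, e ι ≤ 8 * P) ∧ (∀ i, 5 * P ≤ e (i, none)) ∧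
    ∀ f f' : Ty → Ix m, ∑ j, e (f j) = ∑ j, e (f' j) →
      (∀ ι, (∃ j, f j = ι) ↔ ∃ j, f' j = ι) ∨ (Full f ∧ Full f') := by
  classical
  obtain ⟨P, hP, h1, h2⟩ := Nat.exists_prime_lt_and_le_two_mul ((4 * m) ^ 8) (by positivity)
  have := Fact.mk hP
  have h8 : 8 < P := by
    have : 4 ^ 8 ≤ (4 * m) ^ 8 := Nat.pow_le_pow_left (by omega) 8
    omega
  let L : (Ty → Ix m) × (Ty → Ix m) → ((Fin m × Fin 3 → ZMod P) →ₗ[ZMod P] ZMod P) :=
    fun q => ∑ j, form (ZMod P) (q.1 j) - ∑ j, form (ZMod P) (q.2 j)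
  have : Nonempty (Fin m × Fin 3) := ⟨(⟨0, hm⟩, 0)⟩
  have hs := Submodule.iUnion_ssubset_of_forall_ne_top_of_card_lt
    (univ : Finset ((Ty → Ix m) × (Ty → Ix m)))
    (fun q => if L q = 0 then ⊥ else LinearMap.ker (L q))
    (fun q => by
      split_ifs with h
      · exact bot_ne_top
      · exact fun h3 => h (LinearMap.ker_eq_top.mp h3))
    (by
      rw [ENat.card_eq_coe_fintype_card, ZMod.card]
      norm_cast
      refine lt_of_eq_of_lt ?_ h1
      simp only [card_univ, Fintype.card_prod, Fintype.card_fun, Fintype.card_option,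
        Fintype.card_fin]
      ring)
  obtain ⟨g, -, hg⟩ := Set.exists_of_ssubset hs
  simp only [mem_univ, Set.iUnion_true, Set.mem_iUnion, not_exists] at hg
  let e : Ix m → ℕ := fun ι => match ι with
    | (i, some τ) => (g (i, τ)).val
    | (i, none) => 8 * P - ∑ τ, (g (i, τ)).val
  have hlt : ∀ q, (g q).val < P := fun q => ZMod.val_lt _
  have hsum : ∀ i, ∑ τ, (g (i, τ)).val ≤ 3 * P := fun i => by
    have a := hlt (i, 0)
    have b := hlt (i, 1)
    have c := hlt (i, 2)
    rw [Fin.sum_univ_three]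
    omega
  have he : ∀ ι, ((e ι : ℕ) : ZMod P) = form (ZMod P) ι g := by
    rintro ⟨i, _ | τ⟩
    · have := hsum i
      simp only [e, form]
      rw [Nat.cast_sub (by omega)]
      simp
    · simp [e, form]
  refine ⟨P, e, by omega, h2, fun i => ?_, ?_, fun i => ?_, fun f f' h => ?_⟩
  · have := hsum i
    rw [Fintype.sum_option]
    simp only [e]
    omega
  · rintro ⟨i, _ | τ⟩
    · simp only [e]; omega
    · have := hlt (i, τ)
      simp only [e]; omega
  · have := hsum i
    simp only [e]; omega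
  · have h3 : L (f, f') g = 0 := by
      have := congrArg (Nat.cast : ℕ → ZMod P) h
      simp only [Nat.cast_sum, he] at this
      simp only [L, LinearMap.sub_apply, LinearMap.sum_apply, this, sub_self]
    have h4 : L (f, f') = 0 := by
      by_contra h5
      have := hg (f, f')
      rw [if_neg h5] at this
      exact this h3
    refine comb f f' fun i τ => ?_
    have h5 := LinearMap.congr_fun h4 (Pi.single (i, τ) 1)
    simp only [L, LinearMap.sub_apply, LinearMap.sum_apply, form_single, sum_sub_distrib,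
      sum_boole, LinearMap.zero_apply] at h5
    have h6 : ((cnt f (i, some τ) + cnt f' (i, none) : ℕ) : ZMod P) =
        ((cnt f' (i, some τ) + cnt f (i, none) : ℕ) : ZMod P) := by
      simp only [cnt, Nat.cast_add]
      linear_combination h5
    have a := cnt_le f (i, some τ)
    have b := cnt_le f' (i, none)
    have c := cnt_le f' (i, some τ)
    have d := cnt_le f (i, none)
    rw [ZMod.natCast_eq_natCast_iff'] at h6
    rwa [Nat.mod_eq_of_lt (by omega), Nat.mod_eq_of_lt (by omega)] at h6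

theorem full_iff {m : ℕ} (f : Ty → Ix m) :
    Full f ↔ ∃ (i : Fin m) (σ : Equiv.Perm Ty), f = fun j => (i, σ j) := by
  constructor
  · rintro ⟨i, h⟩
    choose s hs using h
    have hi : Function.Injective s := fun a b hab => by
      have := hs a
      rw [hab, hs b] at this
      exact (Prod.mk.inj this).2.symm
    let σ := Equiv.ofBijective s (Finite.injective_iff_bijective.mp hi)
    refine ⟨i, σ.symm, funext fun j => ?_⟩
    have := hs (σ.symm j)
    rwa [show s (σ.symm j) = j from σ.apply_symm_apply j] at this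
  · rintro ⟨i, σ, rfl⟩
    exact ⟨i, fun τ => ⟨σ.symm τ, by simp⟩⟩

theorem sum_full {m : ℕ} (c : Ix m → ℕ) [DecidablePred (Full (m := m))] :
    ∑ f ∈ univ.filter Full, ∏ j, c (f j) = 24 * ∑ i, ∏ τ, c (i, τ) := by
  classical
  have h : (univ.filter Full : Finset (Ty → Ix m)) =
      univ.image fun q : Fin m × Equiv.Perm Ty => fun j => (q.1, q.2 j) := by
    ext f
    simp only [mem_filter, mem_univ, true_and, mem_image, full_iff, Prod.exists]
    exact ⟨fun ⟨i, σ, h⟩ => ⟨i, σ, h.symm⟩, fun ⟨i, σ, h⟩ => ⟨i, σ, h.symm⟩⟩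
  rw [h, sum_image]
  · rw [Fintype.sum_prod_type, mul_sum]
    refine sum_congr rfl fun i _ => ?_
    have : ∀ σ : Equiv.Perm Ty, ∏ j, c (i, σ j) = ∏ τ, c (i, τ) :=
      fun σ => Equiv.prod_comp σ fun τ => c (i, τ)
    simp only [this, sum_const, card_univ, Fintype.card_perm, Fintype.card_option,
      Fintype.card_fin, smul_eq_mul]
    rfl
  · rintro ⟨i, σ⟩ _ ⟨i', σ'⟩ _ h
    have h1 := fun j => Prod.mk.inj (congrFun h j)
    exact Prod.ext (h1 none).1 (Equiv.ext fun j => (h1 j).2)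

theorem digits_lt (β : ℕ) (D : ℕ → ℕ) (hD : ∀ E, D E < 2 ^ β) (M : ℕ) :
    ∑ E ∈ range M, D E * 2 ^ (β * E) < 2 ^ (β * M) := by
  induction M with
  | zero => simp
  | succ M ih =>
    rw [sum_range_succ, Nat.mul_succ, pow_add]
    have := Nat.mul_le_mul_right (2 ^ (β * M)) (Nat.succ_le_of_lt (hD M))
    rw [Nat.succ_mul] at this
    nlinarith

theorem digits_bit {α : Type} (β : ℕ) (D : α → ℕ → ℕ) (hD : ∀ x E, D x E < 2 ^ β) (M b : ℕ) :
    (∀ x, (∑ E ∈ range M, D x E * 2 ^ (β * E)).testBit b = false) ∨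
    ∃ E r, ∀ x, (∑ E ∈ range M, D x E * 2 ^ (β * E)).testBit b = (D x E).testBit r := by
  induction M with
  | zero => simp
  | succ M ih =>
    have h : ∀ x, (∑ E ∈ range (M + 1), D x E * 2 ^ (β * E)).testBit b =
        if b < β * M then (∑ E ∈ range M, D x E * 2 ^ (β * E)).testBit b
        else (D x M).testBit (b - β * M) := by
      intro x
      rw [sum_range_succ, add_comm, mul_comm,
        Nat.testBit_two_pow_mul_add _ (digits_lt β (D x) (hD x) M)]
    by_cases hb : b < β * M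
    · simpa only [h, if_pos hb] using ih
    · exact Or.inr ⟨M, b - β * M, fun x => by rw [h, if_neg hb]⟩

end Pool.Agent.Lib.CGC
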