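import Pool.Agent.Lib.CGC.Exps
import Pool.Agent.Lib.CGC.Deg
import Pool.Agent.Lib.CGC.Defs
import Pool.Agent.Lib.CG7.Main

set_option autoImplicit false

namespace Pool.Agent.Lib.CGC

open Finset Pool.Agent.Lib.CG7

variable {m : ℕ}

def cf (w : ℕ) (x : Fin m → Bool) (ι : Ix m) : ℕ :=
  if ι.2 = some 0 then (x ι.1).toNat else if ι.2 = some 1 then w else 1

theorem cf_le (w : ℕ) (hw : 1 ≤ w) (x : Fin m → Bool) (ι : Ix m) : cf w x ι ≤ w := by
  unfold cf
  split_ifs
  · exact (Bool.toNat_le _).trans hw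
  · exact le_rfl
  · exact hw

theorem cf_full (w : ℕ) (x : Fin m → Bool) : ∑ i, ∏ τ, cf w x (i, τ) = w * wt x := by
  have : ∀ i, ∏ τ, cf w x (i, τ) = w * (if x i = true then 1 else 0) := by
    intro i
    rw [Fintype.prod_option, Fin.prod_univ_three]
    cases h : x i <;> simp [cf, h]
  simp only [this, ← mul_sum, wt, card_filter]

def vars (f : Ty → Ix m) : Finset (Fin m) :=
  (univ.filter fun j => (f j).2 = some 0).image fun j => (f j).1

theorem vars_card (f : Ty → Ix m) : (vars f).card ≤ 4 :=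
  card_image_le.trans ((card_le_univ _).trans (by simp))

theorem mem_vars (f : Ty → Ix m) (i : Fin m) : i ∈ vars f ↔ ∃ j, f j = (i, some 0) := by
  simp only [vars, mem_image, mem_filter, mem_univ, true_and, Prod.ext_iff]
  exact ⟨fun ⟨j, a, b⟩ => ⟨j, b, a⟩, fun ⟨j, a, b⟩ => ⟨j, b, a⟩⟩

theorem cf_prod (w : ℕ) (x : Fin m → Bool) (f : Ty → Ix m) :
    ∏ j, cf w x (f j) =
      if ∀ i ∈ vars f, x i = true then ∏ j, cf w (fun _ => true) (f j) else 0 := by
  split_ifs with h
  · refine prod_congr rfl fun j _ => ?_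
    unfold cf
    split_ifs with h1
    · rw [h (f j).1 ((mem_vars f _).mpr ⟨j, Prod.ext rfl h1⟩)]
    · rfl
    · rfl
  · push Not at h
    obtain ⟨i, hi, h⟩ := h
    obtain ⟨j, hj⟩ := (mem_vars f i).mp hi
    refine prod_eq_zero (mem_univ j) ?_
    simp only [ne_eq, Bool.not_eq_true] at h
    simp [cf, hj, h]

theorem gadget (m : ℕ) (hm : 1 ≤ m) (k δ : ℕ) (hk : k ≤ m) (hδ1 : 1 ≤ δ) (hδ : δ ≤ m) :
    ∃ N : (Fin m → Bool) → ℕ,
      (∀ x, 0 < N x ∧ N x < 2 ^ (2 ^ 30 * m ^ 9) ∧ (wt x = k → ¬ Congruent (N x)) ∧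
        (wt x + δ = k → Congruent (N x))) ∧
      ∀ b, ∃ (V : Finset (Fin m)) (ε : Bool), V.card ≤ 4 ∧
        ∀ x, ((N x).testBit b = true ↔ ε = true ∧ ∀ i ∈ V, x i = true) := by
  classical
  obtain ⟨P, e, hP1, hP2, he1, he2, he3, he4⟩ := exps m hm
  set β := 72 + 16 * m with hβ
  set w := (24 * δ) ^ 3 with hw
  have hw1 : 1 ≤ w := Nat.one_le_pow _ _ (by omega)
  have hm2 : m ≤ 2 ^ m := Nat.lt_two_pow_self.le
  have hbig : 2 * (4 * m * w) ^ 4 < 2 ^ β := by
    have h1 : w ≤ (24 * m) ^ 3 := Nat.pow_le_pow_left (by omega) 3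
    have h2 : (4 * m * w) ^ 4 ≤ (4 * m * (24 * m) ^ 3) ^ 4 :=
      Nat.pow_le_pow_left (Nat.mul_le_mul_left _ h1) 4
    have h3 : m ^ 16 ≤ (2 ^ m) ^ 16 := Nat.pow_le_pow_left hm2 16
    have h4 : 2 ^ β = 2 ^ 72 * (2 ^ m) ^ 16 := by rw [hβ, pow_add, mul_comm 16 m, pow_mul]
    have h5 : (4 * m * (24 * m) ^ 3) ^ 4 = 9349208943630483456 * m ^ 16 := by ring
    have h6 : 0 < (2 ^ m) ^ 16 := by positivity
    rw [h4]
    omega
  let σ : (Ty → Ix m) → ℕ := fun f => ∑ j, e (f j)
  let coef : (Fin m → Bool) → ℕ → ℕ := fun x E =>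
    ∑ f ∈ univ.filter fun f => σ f = E, ∏ j, cf w x (f j)
  let D : (Fin m → Bool) → ℕ → ℕ := fun x E => 2 * if E = 8 * P then 24 * (w * k) else coef x E
  let t : (Fin m → Bool) → ℕ := fun x => ∑ ι, cf w x ι * 2 ^ (β * e ι)
  have hσ : ∀ f, σ f < 32 * P + 1 := fun f => by
    have : σ f ≤ _ := sum_le_card_nsmul univ (fun j => e (f j)) (8 * P) fun j _ => he2 _
    simp only [card_univ, Fintype.card_option, Fintype.card_fin, smul_eq_mul] at this
    omega
  have hfull : ∀ f, σ f = 8 * P ↔ Full f := fun f => by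
    constructor
    · intro h
      rcases he4 f (fun τ => (⟨0, hm⟩, τ)) (h.trans (he1 _).symm) with h1 | h1
      · exact ⟨⟨0, hm⟩, fun τ => (h1 _).mpr ⟨τ, rfl⟩⟩
      · exact h1.1
    · intro h
      obtain ⟨i, s, rfl⟩ := (full_iff f).mp h
      exact (Equiv.sum_comp s fun τ => e (i, τ)).trans (he1 i)
  have hcT : ∀ x, coef x (8 * P) = 24 * (w * wt x) := fun x => by
    rw [← cf_full, ← sum_full]
    exact sum_congr (filter_congr fun f _ => hfull f) fun _ _ => rfl
  have hcoef : ∀ x E, coef x E ≤ (4 * m * w) ^ 4 := fun x E => by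
    have h1 : ∀ f : Ty → Ix m, ∏ j, cf w x (f j) ≤ w ^ 4 := fun f => by
      simpa using prod_le_pow_card univ (fun j => cf w x (f j)) w fun j _ => cf_le w hw1 x _
    refine (sum_le_card_nsmul _ _ _ fun f _ => h1 f).trans ?_
    rw [smul_eq_mul, mul_pow]
    refine Nat.mul_le_mul_right _ ((card_le_univ _).trans (le_of_eq ?_))
    simp only [Fintype.card_prod, Fintype.card_fun, Fintype.card_option, Fintype.card_fin]
    ring
  have hD : ∀ x E, D x E < 2 ^ β := fun x E => by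
    refine lt_of_le_of_lt (Nat.mul_le_mul_left 2 ?_) hbig
    split_ifs
    · have h1 : w * k ≤ w * m := Nat.mul_le_mul_left _ hk
      have h2 : 1 ≤ w * m := Nat.mul_pos hw1 hm
      have h3 : w * m ≤ (w * m) ^ 4 := Nat.le_self_pow (by norm_num) _
      have h4 : (4 * m * w) ^ 4 = 256 * (w * m) ^ 4 := by ring
      omega
    · exact hcoef x E
  have ht4 : ∀ x, t x ^ 4 = ∑ E ∈ range (32 * P + 1), coef x E * 2 ^ (β * E) := fun x => by
    have h1 : t x ^ 4 = ∏ _j : Ty, ∑ ι, cf w x ι * 2 ^ (β * e ι) := by simp [t]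
    rw [h1, Finset.prod_univ_sum, Fintype.piFinset_univ,
      ← sum_fiberwise_of_maps_to (g := σ) (t := range (32 * P + 1))
        (fun f _ => mem_range.mpr (hσ f))]
    refine sum_congr rfl fun E _ => ?_
    simp only [coef]
    rw [sum_mul]
    refine sum_congr rfl fun f hf => ?_
    rw [prod_mul_distrib, prod_pow_eq_pow_sum, ← mul_sum, ← (mem_filter.mp hf).2]
  have hN : ∀ x, (∑ E ∈ range (32 * P + 1), D x E * 2 ^ (β * E)) +
      2 * (24 * (w * wt x) * 2 ^ (β * (8 * P))) =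
      2 * t x ^ 4 + 2 * (24 * (w * k) * 2 ^ (β * (8 * P))) := fun x => by
    have hT : 8 * P ∈ range (32 * P + 1) := mem_range.mpr (by omega)
    rw [ht4, ← add_sum_erase _ _ hT, ← add_sum_erase _ (fun E => coef x E * 2 ^ (β * E)) hT, hcT]
    have : ∑ E ∈ (range (32 * P + 1)).erase (8 * P), D x E * 2 ^ (β * E) =
        2 * ∑ E ∈ (range (32 * P + 1)).erase (8 * P), coef x E * 2 ^ (β * E) := by
      rw [mul_sum]
      refine sum_congr rfl fun E hE => ?_
      simp only [D, if_neg (ne_of_mem_erase hE)]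
      ring
    rw [this]
    simp only [D, if_true]
    ring
  have ht : ∀ x, 24 * δ * 2 ^ (β * (2 * P)) < t x := fun x => by
    have h1 : cf w x (⟨0, hm⟩, none) * 2 ^ (β * e (⟨0, hm⟩, none)) ≤ t x :=
      single_le_sum (f := fun ι => cf w x ι * 2 ^ (β * e ι)) (fun _ _ => Nat.zero_le _)
        (mem_univ _)
    have h2 : cf w x (⟨0, hm⟩, none) = 1 := by simp [cf]
    rw [h2, one_mul] at h1
    have h3 : β + β * (2 * P) ≤ β * e (⟨0, hm⟩, none) := by
      have := he3 ⟨0, hm⟩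
      calc β + β * (2 * P) = β * (1 + 2 * P) := by ring
        _ ≤ _ := Nat.mul_le_mul_left _ (by omega)
    have h4 := Nat.pow_le_pow_right (show 0 < 2 by norm_num) h3
    have h5 : 24 * δ < 2 ^ β := by
      have : 2 ^ β = 2 ^ (72 + 15 * m) * 2 ^ m := by rw [← pow_add]; congr 1; omega
      have h6 : 2 ^ 5 ≤ 2 ^ (72 + 15 * m) := Nat.pow_le_pow_right (by norm_num) (by omega)
      nlinarith
    rw [pow_add] at h4
    have h6 := Nat.mul_lt_mul_of_pos_right h5 (show 0 < 2 ^ (β * (2 * P)) by positivity)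
    omega
  have hmono : ∀ E, ∃ (V : Finset (Fin m)) (γ : ℕ), V.card ≤ 4 ∧
      ∀ x, D x E = if ∀ i ∈ V, x i = true then γ else 0 := fun E => by
    by_cases hE : E = 8 * P
    · exact ⟨∅, 2 * (24 * (w * k)), by simp, fun x => by simp [D, hE]⟩
    by_cases h0 : ∃ f, σ f = E
    · obtain ⟨f0, hf0⟩ := h0
      have hv : ∀ f, σ f = E → vars f = vars f0 := fun f hf => by
        rcases he4 f f0 (hf.trans hf0.symm) with h1 | h1
        · ext i
          rw [mem_vars, mem_vars, h1]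
        · exact absurd (hf.symm.trans ((hfull f).mpr h1.1)) hE
      refine ⟨vars f0, 2 * coef (fun _ => true) E, vars_card _, fun x => ?_⟩
      simp only [D, if_neg hE, coef]
      split_ifs with h
      · congr 1
        refine sum_congr rfl fun f hf => ?_
        rw [cf_prod, hv f (mem_filter.mp hf).2, if_pos h]
      · rw [sum_eq_zero fun f hf => by rw [cf_prod, hv f (mem_filter.mp hf).2, if_neg h],
          mul_zero]
    · refine ⟨∅, 0, by simp, fun x => ?_⟩
      push Not at h0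
      simp [D, hE, coef, h0]
  refine ⟨fun x => ∑ E ∈ range (32 * P + 1), D x E * 2 ^ (β * E), fun x => ?_, fun b => ?_⟩
  · have h1 := hN x
    have h2 := ht x
    have h3 : 0 < 24 * δ * 2 ^ (β * (2 * P)) := by positivity
    refine ⟨?_, (digits_lt β (D x) (hD x) _).trans_le (Nat.pow_le_pow_right (by norm_num) ?_),
      fun h => ?_, fun h => ?_⟩
    · have h4 : 4 * e (⟨0, hm⟩, none) ∈ range (32 * P + 1) := by
        have := he2 (⟨0, hm⟩, none)
        exact mem_range.mpr (by omega)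
      refine lt_of_lt_of_le ?_ (single_le_sum (f := fun E => D x E * 2 ^ (β * E))
        (fun _ _ => Nat.zero_le _) h4)
      have h5 : 4 * e (⟨0, hm⟩, none) ≠ 8 * P := by
        have := he3 ⟨0, hm⟩
        omega
      have h6 : ∏ _j : Ty, cf w x (⟨0, hm⟩, none) ≤ coef x (4 * e (⟨0, hm⟩, none)) :=
        single_le_sum (f := fun f : Ty → Ix m => ∏ j, cf w x (f j)) (fun _ _ => Nat.zero_le _)
          (a := fun _ => (⟨0, hm⟩, none)) (mem_filter.mpr ⟨mem_univ _, by simp [σ]; ring⟩)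
      have h7 : cf w x (⟨0, hm⟩, none) = 1 := by simp [cf]
      rw [h7, prod_const_one] at h6
      simp only [D, if_neg h5]
      positivity
    · have h4 : 1 ≤ (4 * m) ^ 8 := Nat.one_le_pow _ _ (by omega)
      have h5 : β * (32 * P + 1) ≤ (88 * m) * (65 * (4 * m) ^ 8) :=
        Nat.mul_le_mul (by omega) (by omega)
      have h6 : (88 * m) * (65 * (4 * m) ^ 8) = 374865920 * m ^ 9 := by ring
      omega
    · rw [h, add_left_inj] at h1
      simp only [h1]
      intro hc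
      have h4 : Cg (2 * ((t x : ℚ) ^ 2) ^ 2) := by
        have : Cg ((2 * t x ^ 4 : ℕ) : ℚ) := hc
        push_cast at this
        rwa [← pow_mul]
      have h5 : (t x : ℚ) ≠ 0 := by exact_mod_cast (by omega : t x ≠ 0)
      exact not_cg_two ((cg_sq _ _ (pow_ne_zero _ h5)).mp h4)
    · set u := 24 * δ * 2 ^ (β * (2 * P)) with hu
      have h4 : ∑ E ∈ range (32 * P + 1), D x E * 2 ^ (β * E) = 2 * (t x ^ 4 + u ^ 4) := by
        have : u ^ 4 = 24 * (w * δ) * 2 ^ (β * (8 * P)) := by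
          rw [hu, hw, mul_pow, ← pow_mul, show β * (2 * P) * 4 = β * (8 * P) by ring]; ring
        rw [← h] at h1
        rw [this]
        have h5 : 24 * (w * (wt x + δ)) * 2 ^ (β * (8 * P)) =
            24 * (w * wt x) * 2 ^ (β * (8 * P)) + 24 * (w * δ) * 2 ^ (β * (8 * P)) := by ring
        omega
      simp only [h4]
      have h5 : (0 : ℚ) < u := by exact_mod_cast h3
      have h6 : (1 : ℚ) < t x / u := by
        rw [one_lt_div h5]; exact_mod_cast h2
      have h7 := (cg_quartic _ h6).mul_sq ((u : ℚ) ^ 2) (by positivity)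
      have h8 : 2 * (1 + ((t x : ℚ) / u) ^ 4) * ((u : ℚ) ^ 2) ^ 2 =
          ((2 * (t x ^ 4 + u ^ 4) : ℕ) : ℚ) := by
        push_cast
        field_simp
        ring
      rw [h8] at h7
      exact h7
  · rcases digits_bit β D hD (32 * P + 1) b with h | ⟨E, r, h⟩
    · exact ⟨∅, false, by simp, fun x => by simp [h x]⟩
    · obtain ⟨V, γ, h1, h2⟩ := hmono E
      refine ⟨V, γ.testBit r, h1, fun x => ?_⟩
      simp only [h x, h2 x]
      split_ifs with h3
      · exact ⟨fun a => ⟨a, h3⟩, fun a => a.1⟩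
      · exact ⟨fun a => by simp at a, fun a => absurd a.2 h3⟩

end Pool.Agent.Lib.CGC
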