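import Pool.Agent.Lib.CGC.Gadget
import Pool.Agent.Lib.CGC.App

set_option autoImplicit false

namespace Pool.Agent.Lib.CGC

open Finset

theorem wt_le {m : ℕ} (x : Fin m → Bool) : wt x ≤ m := by
  have := wt_flip x
  omega

theorem family (m : ℕ) (hm : 1 ≤ m) : ∃ (N : Fin m → Fin m → (Fin m → Bool) → ℕ)
    (V : Fin m → Fin m → ℕ → Finset (Fin m)) (ε : Fin m → Fin m → ℕ → Bool),
    (∀ k δ x, 0 < N k δ x ∧ N k δ x < 2 ^ (2 ^ 30 * m ^ 9)) ∧
    (∀ k δ b, (V k δ b).card ≤ 4 ∧
      ∀ x, ((N k δ x).testBit b = true ↔ ε k δ b = true ∧ ∀ i ∈ V k δ b, x i = true)) ∧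
    ∀ h x, 1 ≤ h → (h ≤ wt x ↔ ∃ k : Fin m, h ≤ k + 1 ∧ ∀ δ, ¬ Congruent (N k δ x)) := by
  choose N h1 V ε h2 using fun k δ : Fin m =>
    gadget m hm (k + 1) (δ + 1) k.2 (by omega) δ.2
  refine ⟨N, V, ε, fun k δ x => ⟨(h1 k δ x).1, (h1 k δ x).2.1⟩, h2, fun h x hh => ?_⟩
  have := wt_le x
  constructor
  · intro h3
    exact ⟨⟨wt x - 1, by omega⟩, by simp only []; omega,
      fun δ => (h1 _ δ x).2.2.1 (by simp only []; omega)⟩
  · rintro ⟨k, h3, h4⟩
    by_contra h5
    have := k.2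
    exact h4 ⟨k - wt x, by omega⟩ ((h1 k _ x).2.2.2 (by simp only []; omega))

theorem arith (n r K d : ℕ) (hK : 4 ≤ K) (h1 : n < 2 ^ 30 * (2 * (r + 1) + 1) ^ 9)
    (h2 : 2 * r + 1 ≤ 16 * (4 * K ^ d * K * K) ^ 2) : n ≤ K ^ (18 * d + 92) := by
  have h3 : 16 * (4 * K ^ d * K * K) ^ 2 = 256 * K ^ (2 * d + 4) := by ring
  have h4 : 1 ≤ K ^ (2 * d + 4) := Nat.one_le_pow _ _ (by omega)
  have h5 : 2 * (r + 1) + 1 ≤ 512 * K ^ (2 * d + 4) := by omega
  have h6 := Nat.pow_le_pow_left h5 9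
  have h7 : 4 ^ 56 ≤ K ^ 56 := Nat.pow_le_pow_left hK 56
  have h8 : K ^ (18 * d + 92) = K ^ 56 * (K ^ (2 * d + 4)) ^ 9 := by ring
  have h9 := Nat.mul_le_mul_right ((K ^ (2 * d + 4)) ^ 9) h7
  rw [mul_pow] at h6
  rw [h8]
  omega

theorem lower_nat {p : ℕ} [Fact p.Prime] (n d : ℕ) {G : Type} [Fintype G] (C : Circuit n G)
    (hC : C.Over {AND, OR, MOD p} d)
    (h : ∀ A, 0 < A → A < 2 ^ n → (C.Accepts (fun i => A.testBit i) ↔ Congruent A))
    (l : ℕ) (hn : 1 ≤ n) (hl : 16 * n ^ 2 * Fintype.card G ≤ 2 ^ l) :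
    n ≤ (p * l) ^ (18 * d + 92) := by
  classical
  have hp := (Fact.out : p.Prime).two_le
  have hS : 1 ≤ Fintype.card G := Fintype.card_pos_iff.mpr ⟨C.out⟩
  have hn2 : 1 ≤ n ^ 2 * Fintype.card G := Nat.mul_pos (by positivity) hS
  have hl4 : 4 ≤ l := by
    by_contra h1
    have : 2 ^ l ≤ 2 ^ 3 := Nat.pow_le_pow_right (by norm_num) (by omega)
    rw [mul_assoc] at hl
    omega
  have hK : 4 ≤ (p - 1) * l := hl4.trans (Nat.le_mul_of_pos_left _ (by omega))
  refine le_trans ?_ (Nat.pow_le_pow_left (Nat.mul_le_mul_right l (Nat.sub_le p 1)) _)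
  have hex : ∃ r, n < 2 ^ 30 * (2 * r + 1) ^ 9 := ⟨n, by
    have : 2 * n + 1 ≤ (2 * n + 1) ^ 9 := Nat.le_self_pow (by norm_num) _
    omega⟩
  have h1 := Nat.find_spec hex
  rcases hr : Nat.find hex with _ | r
  · rw [hr] at h1
    refine arith n 0 _ d hK (by omega) ?_
    have : 0 < (4 * ((p - 1) * l) ^ d * ((p - 1) * l) * ((p - 1) * l)) ^ 2 := by positivity
    omega
  have h2 : ¬ n < 2 ^ 30 * (2 * r + 1) ^ 9 := Nat.find_min hex (by omega)
  rw [hr] at h1
  refine arith n r _ d hK h1 ?_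
  set m := 2 * r + 1 with hm
  have hmn : m ≤ n := by
    have : m ≤ m ^ 9 := Nat.le_self_pow (by norm_num) _
    omega
  obtain ⟨N, V, ε, a1, a2, a3⟩ := family m (by omega)
  have b1 : ∀ k δ, App p l (4 * ((p - 1) * l) ^ d) (Fintype.card G)
      fun x => C.Accepts fun i => (N k δ x).testBit i := fun k δ => by
    refine circuit_app C d l 4 (by omega) hC (fun x i => (N k δ x).testBit i) fun i => ?_
    cases he : ε k δ i
    · exact ⟨0, zero_mem _, fun x _ => ⟨fun h3 => by simpa [he] using ((a2 k δ i).2 x).mp h3,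
        fun _ => rfl⟩⟩
    · refine ⟨mono _ (V k δ i), mono_mem _ (a2 k δ i).1, fun x _ => ⟨fun h3 => ?_, fun h3 => ?_⟩⟩
      · exact if_pos (((a2 k δ i).2 x).mp h3).2
      · exact if_neg fun h4 => h3 (((a2 k δ i).2 x).mpr ⟨he, h4⟩)
  have b2 := fun k => (App.or (List.finRange m) _ fun δ _ => b1 k δ).not
  obtain ⟨B, c1, c2⟩ := App.or ((List.finRange m).filter fun k : Fin m => r + 1 ≤ k + 1) _
    fun k _ => b2 k
  refine smolensky (F := ZMod p) r _ B ?_ (c2.congr fun x => ?_)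
  · have d1 : ((List.finRange m).filter fun k : Fin m => r + 1 ≤ k + 1).length ≤ n :=
      (List.length_filter_le _ _).trans (by simpa using hmn)
    rw [List.length_finRange] at c1
    have d2 : ((List.finRange m).filter fun k : Fin m => r + 1 ≤ k + 1).length *
        (m * Fintype.card G + 1) ≤ n * (n * Fintype.card G + 1) :=
      Nat.mul_le_mul d1 (Nat.add_le_add_right (Nat.mul_le_mul_right _ hmn) 1)
    have d3 : n ≤ n ^ 2 * Fintype.card G :=
      (Nat.le_self_pow (by norm_num) _).trans (Nat.le_mul_of_pos_right _ hS)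
    have d4 : 4 * (n * (n * Fintype.card G + 1) + 1) ≤ 2 ^ l := by nlinarith
    have d5 : B.card * 2 ^ l ≤ (n * (n * Fintype.card G + 1) + 1) * 2 ^ m :=
      c1.trans (Nat.mul_le_mul_right _ (by omega))
    have d6 : (4 * B.card) * 2 ^ l ≤ 2 ^ m * 2 ^ l := by
      have := Nat.mul_le_mul_right (2 ^ m) d4
      nlinarith
    exact Nat.le_of_mul_le_mul_right d6 (by positivity)
  · rw [a3 (r + 1) x (by omega)]
    have e : ∀ k δ, (C.Accepts fun i => (N k δ x).testBit i) ↔ Congruent (N k δ x) :=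
      fun k δ => h _ (a1 k δ x).1
        ((a1 k δ x).2.trans_le (Nat.pow_le_pow_right (by norm_num) (by omega)))
    simp [e]

theorem lower (p : ℕ) (hp : p.Prime) (n d : ℕ) (hn : 1 ≤ n) {G : Type} [Fintype G]
    (C : Circuit n G) (hC : C.Over {AND, OR, MOD p} d)
    (h : ∀ A, 0 < A → A < 2 ^ n → (C.Accepts (fun i => A.testBit i) ↔ Congruent A)) :
    (2 : ℝ) ^ ((n : ℝ) ^ (1 / (18 * d + 92) : ℝ) / p) ≤ 32 * n ^ 2 * Fintype.card G := by
  have := Fact.mk hp
  have hS : 1 ≤ Fintype.card G := Fintype.card_pos_iff.mpr ⟨C.out⟩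
  have hn2 : 1 ≤ n ^ 2 * Fintype.card G := Nat.mul_pos (by positivity) hS
  set l := Nat.clog 2 (16 * n ^ 2 * Fintype.card G) with hl
  have h1 := lower_nat n d C hC h l hn (Nat.le_pow_clog (by norm_num) _)
  have h0 : 1 < 16 * n ^ 2 * Fintype.card G := by rw [mul_assoc]; omega
  have h2 := Nat.pow_pred_clog_lt_self (b := 2) (by norm_num) h0
  have h3 : 0 < l := Nat.clog_pos (by norm_num) h0
  have h4 : 2 ^ l ≤ 32 * n ^ 2 * Fintype.card G := by
    rw [← hl] at h2
    obtain ⟨j, hj⟩ : ∃ j, l = j + 1 := ⟨l - 1, by omega⟩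
    rw [hj] at h2 ⊢
    rw [Nat.pred_succ, mul_assoc] at h2
    rw [pow_succ, mul_assoc]
    omega
  have h5 : (n : ℝ) ^ (1 / (18 * d + 92) : ℝ) ≤ p * l := by
    have h6 : (n : ℝ) ≤ ((p : ℝ) * l) ^ (18 * d + 92) := by exact_mod_cast h1
    have h7 := Real.rpow_le_rpow (Nat.cast_nonneg n) h6
      (show (0 : ℝ) ≤ 1 / (18 * d + 92) by positivity)
    have h8 : (1 / (18 * d + 92) : ℝ) = ((18 * d + 92 : ℕ) : ℝ)⁻¹ := by push_cast; rw [one_div]
    rwa [h8, Real.pow_rpow_inv_natCast (by positivity) (by omega), ← h8] at h7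
  have hp0 : (0 : ℝ) < p := by exact_mod_cast hp.pos
  calc (2 : ℝ) ^ ((n : ℝ) ^ (1 / (18 * d + 92) : ℝ) / p) ≤ 2 ^ (l : ℝ) :=
        Real.rpow_le_rpow_of_exponent_le (by norm_num) (by rw [div_le_iff₀ hp0]; linarith)
    _ = ((2 ^ l : ℕ) : ℝ) := by rw [Real.rpow_natCast]; push_cast; rfl
    _ ≤ _ := by exact_mod_cast h4

theorem ofDigits_bits (L N : ℕ) (h : N < 2 ^ L) :
    Nat.ofDigits 2 (((List.finRange L).map fun b : Fin L => N.testBit b).map Bool.toNat) = N := by
  have key : ∀ L, Nat.ofDigits 2 (((List.range L).map fun b => N.testBit b).map Bool.toNat) =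
      N % 2 ^ L := by
    intro L
    induction L with
    | zero => simp [Nat.mod_one]
    | succ L ih =>
      rw [List.range_succ, List.map_append, List.map_append, Nat.ofDigits_append, ih,
        Nat.mod_pow_succ, ← Nat.toNat_testBit]
      simp
  have e : ((List.finRange L).map fun b : Fin L => N.testBit b) =
      (List.range L).map fun b => N.testBit b := by
    rw [← List.map_coe_finRange_eq_range, List.map_map]
    rfl
  rw [e, key, Nat.mod_eq_of_lt h]

theorem reduction (m h : ℕ) (hm : 1 ≤ m) (hh : 1 ≤ h) :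
    ∃ (G : Type) (_ : Fintype G) (C : Circuit m G), C.Over {AND, OR, CONG} 4 ∧
      Fintype.card G ≤ 2 ^ 31 * m ^ 11 ∧ (∀ g, (C.inp g).length ≤ 2 ^ 30 * m ^ 9) ∧
      ∀ x, C.Accepts x ↔ h ≤ wt x := by
  classical
  obtain ⟨N, V, ε, a1, a2, a3⟩ := family m hm
  set L := 2 ^ 30 * m ^ 9 with hL
  let G := (Fin m × Fin m × Fin L) ⊕ (Fin m × Fin m) ⊕ Fin m ⊕ Unit
  let C : Circuit m G :=
    { op := Sum.elim (fun q => if ε q.1 q.2.1 q.2.2 = true then AND else OR)
        (Sum.elim (fun _ => CONG) (Sum.elim (fun _ => AND) fun _ => OR))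
      lev := Sum.elim (fun _ => 0) (Sum.elim (fun _ => 1) (Sum.elim (fun _ => 2) fun _ => 3))
      inp := Sum.elim
        (fun q => if ε q.1 q.2.1 q.2.2 = true then
          (V q.1 q.2.1 q.2.2).toList.map fun i => (Sum.inl i, false) else [])
        (Sum.elim
          (fun q => (List.finRange L).map fun b => (Sum.inr (Sum.inl (q.1, q.2, b)), false))
          (Sum.elim
            (fun k => (List.finRange m).map fun δ => (Sum.inr (Sum.inr (Sum.inl (k, δ))), true))
            fun _ => ((List.finRange m).filter fun k : Fin m => h ≤ k + 1).map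
              fun k => (Sum.inr (Sum.inr (Sum.inr (Sum.inl k))), false)))
      lt := by
        rintro (q | q | k | u) g b hg
        · simp only [Sum.elim_inl] at hg
          split_ifs at hg <;> simp at hg
        · simp only [Sum.elim_inr, Sum.elim_inl, List.mem_map, Prod.mk.injEq,
            Sum.inr.injEq] at hg
          obtain ⟨_, _, rfl, _⟩ := hg
          simp
        · simp only [Sum.elim_inr, Sum.elim_inl, List.mem_map, Prod.mk.injEq,
            Sum.inr.injEq] at hg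
          obtain ⟨_, _, rfl, _⟩ := hg
          simp
        · simp only [Sum.elim_inr, List.mem_map, Prod.mk.injEq, Sum.inr.injEq] at hg
          obtain ⟨_, _, rfl, _⟩ := hg
          simp
      out := Sum.inr (Sum.inr (Sum.inr ())) }
  have hm9 : m ≤ m ^ 9 := Nat.le_self_pow (by norm_num) _
  refine ⟨G, inferInstance, C, ?_, ?_, ?_, fun x => ?_⟩
  · rintro (q | q | k | u)
    · refine ⟨?_, by simp [C]⟩
      simp only [C, Sum.elim_inl]
      split_ifs <;> simp
    · simp [C]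
    · simp [C]
    · simp [C]
  · simp only [G, Fintype.card_sum, Fintype.card_prod, Fintype.card_fin, Fintype.card_unit]
    have e1 : m * (m * L) = 2 ^ 30 * m ^ 11 := by rw [hL]; ring
    have e2 : m ^ 2 ≤ m ^ 11 := Nat.pow_le_pow_right hm (by norm_num)
    have e3 : m ≤ m ^ 11 := Nat.le_self_pow (by norm_num) _
    have e4 : m * m = m ^ 2 := by ring
    omega
  · rintro (q | q | k | u)
    · simp only [C, Sum.elim_inl]
      split_ifs
      · have := (a2 q.1 q.2.1 q.2.2).1
        rw [List.length_map, Finset.length_toList]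
        omega
      · simp
    · simp [C]
    · simp only [C, Sum.elim_inr, Sum.elim_inl, List.length_map, List.length_finRange]
      omega
    · simp only [C, Sum.elim_inr, List.length_map]
      refine (List.length_filter_le _ _).trans ?_
      rw [List.length_finRange]
      omega
  · let v : G → Bool := Sum.elim (fun q => (N q.1 q.2.1 x).testBit q.2.2)
      (Sum.elim (fun q => decide (Congruent (N q.1 q.2 x)))
        (Sum.elim (fun k => decide (∀ δ, ¬ Congruent (N k δ x))) fun _ => decide (h ≤ wt x)))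
    have hv : Cons C x v := by
      rintro (q | q | k | u)
      · simp only [C, v, Sum.elim_inl, (a2 q.1 q.2.1 q.2.2).2 x]
        split_ifs with h1
        · simp [AND, wire, h1]
        · simp [OR, h1]
      · have := ofDigits_bits L _ (a1 q.1 q.2 x).2
        simp only [C, v, Sum.elim_inl, Sum.elim_inr, decide_eq_true_iff, CONG, List.map_map] at this ⊢
        have e : (Bool.toNat ∘ wire x v ∘ fun b : Fin L =>
            ((Sum.inr (Sum.inl (q.1, q.2, b)), false) : (Fin m ⊕ G) × Bool)) =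
            Bool.toNat ∘ fun b : Fin L => (N q.1 q.2 x).testBit b := by
          funext b; simp [wire, v]
        rw [e, this]
      · simp [C, v, AND, wire]
      · simp [C, v, OR, wire, a3 h x hh]
    rw [accepts_iff C x v hv]
    simp [C, v]

end Pool.Agent.Lib.CGC
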